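import Pool.Agent.H98.AM.Targets

open Polynomial Pool.Agent.H98.AM
open scoped ComplexConjugate

noncomputable section

namespace Pool.Agent.H58.AM

theorem real_form {s : ℕ} {D : ℝ[X]} {t : ℝ} {r : Fin s → ℝ}
    (h : ∀ z : ℂ, aeval z D - t = ∏ i, (z - r i)) (x : ℝ) :
    D.eval x - t = ∏ i, (x - r i) := by
  have h1 := h (x : ℂ)
  have h2 : aeval (x : ℂ) D = ((D.eval x : ℝ) : ℂ) := by
    rw [← Polynomial.coe_aeval_eq_eval]
    exact Polynomial.aeval_algebraMap_apply_eq_algebraMap_eval x D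
  rw [h2] at h1
  exact_mod_cast h1

theorem poly_form {s : ℕ} {D : ℝ[X]} {t : ℝ} {r : Fin s → ℝ}
    (h : ∀ z : ℂ, aeval z D - t = ∏ i, (z - r i)) :
    D = C t + ∏ i, (X - C (r i)) := by
  apply Polynomial.funext
  intro x
  have := real_form h x
  rw [eval_add, eval_C, eval_prod]
  simp only [eval_sub, eval_X, eval_C]
  linarith

theorem uniq {s : ℕ} {D : ℝ[X]} {t : ℝ} {r : Fin s → ℝ}
    (h : ∀ z : ℂ, aeval z D - t = ∏ i, (z - r i)) {a b : ℝ}
    (hD : ∀ E ∈ Set.Ioo a b, D.derivative.eval E ≠ 0) (i j : Fin s)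
    (hi : r i ∈ Set.Ioo a b) (hj : r j ∈ Set.Ioo a b) : i = j := by
  by_contra hij
  have hroot : ∀ k, D.eval (r k) = t := by
    intro k
    have h1 := real_form h (r k)
    rw [Finset.prod_eq_zero (Finset.mem_univ k) (sub_self _)] at h1
    linarith
  by_cases hr : r i = r j
  · apply hD _ hi
    have h2 := poly_form h
    have h3 : ∏ k, (X - C (r k)) = (X - C (r i)) * ((X - C (r i)) *
        ∏ k ∈ (Finset.univ.erase i).erase j, (X - C (r k))) := by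
      rw [← Finset.mul_prod_erase Finset.univ _ (Finset.mem_univ i)]
      congr 1
      rw [← Finset.mul_prod_erase (Finset.univ.erase i) _
        (Finset.mem_erase.mpr ⟨Ne.symm hij, Finset.mem_univ j⟩), hr]
    rw [h2, h3]
    simp
  · have key : ∀ x y, x < y → x ∈ Set.Ioo a b → y ∈ Set.Ioo a b → D.eval x = t → D.eval y = t →
        False := by
      intro x y hxy hx hy hx' hy'
      obtain ⟨c, hc, hc'⟩ := exists_deriv_eq_zero (f := fun z => D.eval z) hxy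
        D.continuous.continuousOn (by rw [hx', hy'])
      apply hD c ⟨hx.1.trans hc.1, hc.2.trans hy.2⟩
      rw [← hc', Polynomial.deriv]
    rcases lt_or_gt_of_ne hr with hlt | hlt
    · exact key _ _ hlt hi hj (hroot i) (hroot j)
    · exact key _ _ hlt hj hi (hroot j) (hroot i)

theorem d5 (h10 : T_D10) (h11 : T_D11) : T_D5 := by
  intro s D hD hs e he
  obtain ⟨α, β, h1, -, -⟩ := h10 s D hD hs
  obtain ⟨ha, hb, hab, hI⟩ := h1 e he
  obtain ⟨h2, h3⟩ := h11 s D e (α e) (β e) hD hs he ha hb hab hI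
  have ha' : |α e - e| ≤ 11 * om D e := by
    rw [abs_of_neg (by linarith)]
    linarith
  have hb' : |β e - e| ≤ 11 * om D e := by
    rw [abs_of_pos (by linarith)]
    linarith
  rcases hab with ⟨h4, h5⟩ | ⟨h4, h5⟩
  · exact ⟨⟨_, h4, ha'⟩, ⟨_, h5, hb'⟩⟩
  · exact ⟨⟨_, h5, hb'⟩, ⟨_, h4, ha'⟩⟩

theorem d4 (h10 : T_D10) (h12 : T_D12) : T_D4 := by
  intro s D hD hs e he
  obtain ⟨α, β, h1, -, -⟩ := h10 s D hD hs
  obtain ⟨ha, hb, hab, hI⟩ := h1 e he
  obtain ⟨h2, h3, h4⟩ := h12 s D e (α e) (β e) hD hs he ha hb hab hI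
  refine ⟨h4, fun t r hr i j hi hj => ?_⟩
  rw [abs_le] at hi hj
  exact uniq hr (fun E hE => (hI E hE).2) i j ⟨by linarith, by linarith⟩ ⟨by linarith, by linarith⟩

theorem d6 (h10 : T_D10) (h11 : T_D11) (h12 : T_D12) : T_D6 := by
  intro s D hD hs
  obtain ⟨α, β, h1, -, h3⟩ := h10 s D hD hs
  refine ⟨α, β, fun e he => ?_, h3⟩
  obtain ⟨ha, hb, hab, hI⟩ := h1 e he
  obtain ⟨h2, h4⟩ := h11 s D e (α e) (β e) hD hs he ha hb hab hI
  obtain ⟨h5, h6, h7⟩ := h12 s D e (α e) (β e) hD hs he ha hb hab hI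
  refine ⟨h5, h6, by linarith, by linarith, fun E hE => ?_, fun t r hr i j hi hj => ?_⟩
  · rcases hE.1.eq_or_lt with h | h
    · rw [← h]
      rcases hab with ⟨h8, -⟩ | ⟨h8, -⟩ <;> rw [h8] <;> norm_num
    rcases hE.2.eq_or_lt with h' | h'
    · rw [h']
      rcases hab with ⟨-, h8⟩ | ⟨-, h8⟩ <;> rw [h8] <;> norm_num
    exact (hI E ⟨h, h'⟩).1.le
  · exact uniq hr (fun E hE => (hI E hE).2) i j hi hj

theorem norm_lin (E d r : ℝ) : |E - r| ≤ ‖((E : ℂ) + d * Complex.I) - r‖ := by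
  have h : (((E : ℂ) + d * Complex.I) - r).re = E - r := by simp
  rw [← h]
  exact Complex.abs_re_le_norm _

theorem norm_lin_sq (E d r : ℝ) : ‖((E : ℂ) + d * Complex.I) - r‖ ^ 2 = (E - r) ^ 2 + d ^ 2 := by
  rw [← Complex.normSq_eq_norm_sq, Complex.normSq_apply]
  simp
  ring

theorem abs_le_norm {s : ℕ} {D : ℝ[X]} {t : ℝ} {r : Fin s → ℝ}
    (h : ∀ z : ℂ, aeval z D - t = ∏ i, (z - r i)) (E d : ℝ) :
    |D.eval E - t| ≤ ‖aeval ((E : ℂ) + d * Complex.I) D - t‖ := by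
  rw [real_form h E, h, Finset.abs_prod, norm_prod]
  exact Finset.prod_le_prod (fun i _ => abs_nonneg _) fun i _ => norm_lin E d (r i)

theorem d8 : T_D8 := by
  intro s D hD E d u t hu hu1 _ hE ht
  obtain ⟨r, hr⟩ := hD.rr 0 (by norm_num)
  have h1 := abs_le_norm hr E d
  simp only [sub_zero, Complex.ofReal_zero] at h1
  set z := aeval ((E : ℂ) + d * Complex.I) D with hz
  have h2 : ‖z‖ - ‖(t : ℂ)‖ ≤ ‖z - t‖ := norm_sub_norm_le _ _
  rw [Complex.norm_real, Real.norm_eq_abs] at h2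
  nlinarith

theorem d7_factor {s : ℕ} {D : ℝ[X]} {t : ℝ} {r : Fin s → ℝ}
    (h : ∀ z : ℂ, aeval z D - t = ∏ i, (z - r i)) {E d u ρ : ℝ} (hu : 0 < u) (hu1 : u ≤ 1)
    (hρ : D.eval ρ = t) (hE : u * |E - ρ| ≤ 12 * d) :
    (1 + u ^ 2 / 300) * |D.eval E - t| ≤ ‖aeval ((E : ℂ) + d * Complex.I) D - t‖ := by
  have h0 : ∏ i, (ρ - r i) = 0 := by
    rw [← real_form h ρ, hρ, sub_self]
  obtain ⟨i0, -, hi0⟩ := Finset.prod_eq_zero_iff.mp h0
  have hr0 : r i0 = ρ := by linarith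
  rw [real_form h E, h, Finset.abs_prod, norm_prod,
    ← Finset.mul_prod_erase Finset.univ _ (Finset.mem_univ i0),
    ← Finset.mul_prod_erase Finset.univ (fun i => ‖((E : ℂ) + d * Complex.I) - r i‖)
      (Finset.mem_univ i0), ← mul_assoc]
  refine mul_le_mul ?_ (Finset.prod_le_prod (fun i _ => abs_nonneg _)
    fun i _ => norm_lin E d (r i)) (Finset.prod_nonneg fun i _ => abs_nonneg _) (norm_nonneg _)
  rw [hr0]
  refine abs_le_of_sq_le_sq' ?_ (norm_nonneg _) |>.2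
  rw [norm_lin_sq, mul_pow, sq_abs]
  have h1 : u ^ 2 * (E - ρ) ^ 2 ≤ 144 * d ^ 2 := by
    have h2 : (u * |E - ρ|) ^ 2 ≤ (12 * d) ^ 2 :=
      pow_le_pow_left₀ (mul_nonneg hu.le (abs_nonneg _)) hE 2
    rw [mul_pow, sq_abs] at h2
    nlinarith
  have h3 : u ^ 2 ≤ 1 := by nlinarith
  have h4 : 0 ≤ u ^ 2 * (E - ρ) ^ 2 := by positivity
  have h5 : u ^ 4 * (E - ρ) ^ 2 ≤ u ^ 2 * (E - ρ) ^ 2 := by
    have : u ^ 4 * (E - ρ) ^ 2 = u ^ 2 * (u ^ 2 * (E - ρ) ^ 2) := by ring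
    rw [this]
    exact mul_le_of_le_one_left h4 h3
  nlinarith

theorem d7 (h5 : T_D5) : T_D7 := by
  intro s D hD hs e he E d u t hu hu1 hd h1 h2 ht
  obtain ⟨⟨ρ, hρ, hρe⟩, ⟨σ, hσ, hσe⟩⟩ := h5 s D hD hs e he
  have key : ∀ x, |x - e| ≤ 11 * om D e → u * |E - x| ≤ 12 * d := by
    intro x hx
    have h3 : |E - x| ≤ |E - e| + |x - e| := by
      have := abs_sub_le E e x
      rw [abs_sub_comm e x] at this
      exact this
    have h4 : u * |E - x| ≤ u * (|E - e| + 11 * om D e) :=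
      mul_le_mul_of_nonneg_left (by linarith) hu.le
    nlinarith
  obtain ⟨r, hr⟩ := hD.rr 4 (by norm_num)
  obtain ⟨r', hr'⟩ := hD.rr (-4) (by norm_num)
  have h6 := d7_factor hr hu hu1 hρ (key ρ hρe)
  have h7 := d7_factor hr' hu hu1 hσ (key σ hσe)
  set z := aeval ((E : ℂ) + d * Complex.I) D with hz
  have h8 : (8 : ℝ) ≤ |D.eval E - 4| + |D.eval E - -4| := by
    have := abs_sub (D.eval E - -4) (D.eval E - 4)
    rw [show D.eval E - -4 - (D.eval E - 4) = 8 by ring] at this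
    norm_num at this ⊢
    linarith
  have h9 : ‖z - ((4 : ℝ) : ℂ)‖ ≤ ‖z - t‖ + |t - 4| := by
    have := norm_sub_le_norm_sub_add_norm_sub z (t : ℂ) ((4 : ℝ) : ℂ)
    rwa [← Complex.ofReal_sub, Complex.norm_real, Real.norm_eq_abs] at this
  have h10 : ‖z - ((-4 : ℝ) : ℂ)‖ ≤ ‖z - t‖ + |t - -4| := by
    have := norm_sub_le_norm_sub_add_norm_sub z (t : ℂ) ((-4 : ℝ) : ℂ)
    rwa [← Complex.ofReal_sub, Complex.norm_real, Real.norm_eq_abs] at this
  have h11 : |t - 4| + |t - -4| = 8 := by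
    rw [abs_le] at ht
    rw [abs_of_nonpos (by linarith), abs_of_nonneg (by linarith)]
    ring
  have hu2 : 0 ≤ u ^ 2 / 300 := by positivity
  have h12 : (1 + u ^ 2 / 300) * 8 ≤ 2 * ‖z - t‖ + 8 := by
    have h13 : (1 + u ^ 2 / 300) * 8 ≤
        (1 + u ^ 2 / 300) * (|D.eval E - 4| + |D.eval E - -4|) :=
      mul_le_mul_of_nonneg_left h8 (by linarith)
    rw [mul_add] at h13
    linarith
  have h14 : u ^ 2 * 4 / 300 ≤ ‖z - t‖ := by linarith
  rcases le_or_gt ‖z‖ 8 with h15 | h15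
  · have : u ^ 2 * ‖z‖ ≤ u ^ 2 * 8 := mul_le_mul_of_nonneg_left h15 (by positivity)
    linarith
  · have h16 : ‖z‖ - ‖(t : ℂ)‖ ≤ ‖z - t‖ := norm_sub_norm_le _ _
    rw [Complex.norm_real, Real.norm_eq_abs] at h16
    have h17 : u ^ 2 * ‖z‖ ≤ 1 * ‖z‖ :=
      mul_le_mul_of_nonneg_right (by nlinarith) (norm_nonneg _)
    linarith

theorem om_nonneg (D : ℝ[X]) (e : ℝ) : 0 ≤ om D e := by
  unfold om
  positivity

theorem d9 (h2 : T_D2) : T_D9 := by
  intro s D hD hs F a b w hF hab hw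
  have hdis : (F : Set ℝ).PairwiseDisjoint
      (fun e => Set.Ioo (e - 2 * om D e) (e + 2 * om D e)) := by
    intro e he e' he' hne
    have h3 := h2 s D hD hs e e' (hF e he).1 (hF e' he').1 hne
    rw [Function.onFun, Set.disjoint_left]
    intro x hx hx'
    rcases abs_cases (e - e') with ⟨h4, -⟩ | ⟨h4, -⟩
    · linarith [hx.1, hx'.2]
    · linarith [hx.2, hx'.1]
  have hsub : (⋃ e ∈ F, Set.Ioo (e - 2 * om D e) (e + 2 * om D e)) ⊆
      Set.Icc (a - 2 * w) (b + 2 * w) := by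
    intro x hx
    simp only [Set.mem_iUnion] at hx
    obtain ⟨e, he, hx⟩ := hx
    obtain ⟨-, h4, h5, h6⟩ := hF e he
    exact ⟨by linarith [hx.1], by linarith [hx.2]⟩
  have h3 := MeasureTheory.measure_mono (μ := MeasureTheory.volume) hsub
  rw [MeasureTheory.measure_biUnion_finset hdis fun _ _ => measurableSet_Ioo] at h3
  simp only [Real.volume_Ioo, Real.volume_Icc] at h3
  have h4 : ∑ e ∈ F, ENNReal.ofReal (e + 2 * om D e - (e - 2 * om D e)) =
      ENNReal.ofReal (∑ e ∈ F, 4 * om D e) := by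
    rw [ENNReal.ofReal_sum_of_nonneg fun e _ => by linarith [om_nonneg D e]]
    refine Finset.sum_congr rfl fun e _ => ?_
    congr 1
    ring
  rw [h4, ENNReal.ofReal_le_ofReal_iff (by linarith), ← Finset.mul_sum] at h3
  linarith

end Pool.Agent.H58.AM
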